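import Pool.Agent.Work.MP_d1e9a6_pr.Statements

/-!
# MP_d1e9a6_pr: the counting lemma `Stmt_Count`
-/

set_option autoImplicit false

open Finset

namespace Pool.Agent.Work.MP_d1e9a6_pr

lemma count_aux {M : Type} [AddCommGroup M] {ι : Type} [DecidableEq ι] (x : ι → M)
    (Z : AddSubgroup M) (s : Finset ι) : ∀ (A0 : AddSubgroup M), A0 ≤ Z → (∀ i ∈ s, x i ∈ Z) →
    Z ≤ A0 ⊔ AddSubgroup.closure (x '' s) → A0.relIndex Z ≠ 0 →
    ∃ w : ι → ℝ, (∀ i, 0 ≤ w i) ∧ ∑ i ∈ s, w i ≤ Real.log (A0.relIndex Z) ∧
      ∀ J ⊆ s, (A0 ⊔ AddSubgroup.closure (x '' J)).relIndex Z ≠ 0 ∧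
        Real.log ((A0 ⊔ AddSubgroup.closure (x '' J)).relIndex Z) ≤ ∑ i ∈ s \ J, w i := by
  induction s using Finset.induction_on with
  | empty =>
    intro A0 hA hx hZ hne
    refine ⟨fun _ => 0, fun _ => le_rfl, ?_, ?_⟩
    · have : A0.relIndex Z = 1 := by
        rw [AddSubgroup.relIndex_eq_one]
        simpa using hZ
      rw [this]; simp
    · intro J hJ
      rw [Finset.subset_empty] at hJ
      subst hJ
      have : (A0 ⊔ AddSubgroup.closure (x '' ((∅ : Finset ι) : Set ι))).relIndex Z = 1 := by
        rw [AddSubgroup.relIndex_eq_one]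
        exact hZ
      rw [this]; simp
  | insert a s ha ih =>
    intro A0 hA hx hZ hne
    set A1 : AddSubgroup M := A0 ⊔ AddSubgroup.closure {x a} with hA1
    have hxa : x a ∈ Z := hx a (Finset.mem_insert_self a s)
    have h01 : A0 ≤ A1 := le_sup_left
    have h1Z : A1 ≤ Z := by
      refine sup_le hA ?_
      rw [AddSubgroup.closure_le]
      simpa using hxa
    have himg : x '' ((insert a s : Finset ι) : Set ι) = {x a} ∪ x '' (s : Set ι) := by
      rw [Finset.coe_insert, Set.image_insert_eq]; rfl
    have hZ1 : Z ≤ A1 ⊔ AddSubgroup.closure (x '' s) := by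
      rw [himg, AddSubgroup.closure_union, ← sup_assoc] at hZ
      exact hZ
    have hmul : A0.relIndex A1 * A1.relIndex Z = A0.relIndex Z :=
      AddSubgroup.relIndex_mul_relIndex A0 A1 Z h01 h1Z
    have hne01 : A0.relIndex A1 ≠ 0 := by
      intro h; rw [h, zero_mul] at hmul; exact hne hmul.symm
    have hne1Z : A1.relIndex Z ≠ 0 := by
      intro h; rw [h, mul_zero] at hmul; exact hne hmul.symm
    obtain ⟨w', hw0, hw1, hw2⟩ := ih A1 h1Z (fun i hi => hx i (Finset.mem_insert_of_mem hi)) hZ1 hne1Z
    have hlog0 : 0 ≤ Real.log (A0.relIndex A1) :=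
      Real.log_natCast_nonneg _
    have hlogmul : Real.log (A0.relIndex Z) = Real.log (A0.relIndex A1) + Real.log (A1.relIndex Z) := by
      rw [← hmul]; push_cast
      rw [Real.log_mul (by exact_mod_cast hne01) (by exact_mod_cast hne1Z)]
    set w : ι → ℝ := fun i => if i = a then Real.log (A0.relIndex A1) else w' i with hw
    have hwa : w a = Real.log (A0.relIndex A1) := by simp [hw]
    have hws : ∀ t : Finset ι, a ∉ t → ∑ i ∈ t, w i = ∑ i ∈ t, w' i := by
      intro t ht
      refine Finset.sum_congr rfl fun i hi => ?_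
      have : i ≠ a := fun h => ht (h ▸ hi)
      simp [hw, this]
    refine ⟨w, ?_, ?_, ?_⟩
    · intro i
      by_cases h : i = a
      · subst h; rw [hwa]; exact hlog0
      · simp only [hw, h, if_false]; exact hw0 i
    · rw [Finset.sum_insert ha, hwa, hws s ha, hlogmul]
      linarith
    · intro J hJ
      by_cases haJ : a ∈ J
      · obtain ⟨h1, h2⟩ := hw2 (J.erase a) (by
          intro i hi
          rw [Finset.mem_erase] at hi
          exact (Finset.mem_insert.mp (hJ hi.2)).resolve_left hi.1)
        have e1 : A0 ⊔ AddSubgroup.closure (x '' (J : Set ι)) =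
            A1 ⊔ AddSubgroup.closure (x '' ((J.erase a : Finset ι) : Set ι)) := by
          have : x '' (J : Set ι) = {x a} ∪ x '' ((J.erase a : Finset ι) : Set ι) := by
            conv_lhs => rw [← Finset.insert_erase haJ]
            rw [Finset.coe_insert, Set.image_insert_eq]; rfl
          rw [this, AddSubgroup.closure_union, ← sup_assoc]
        have e2 : insert a s \ J = s \ J.erase a := by
          ext i
          simp only [Finset.mem_sdiff, Finset.mem_insert, Finset.mem_erase]
          constructor
          · rintro ⟨rfl | h, h'⟩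
            · exact absurd haJ h'
            · exact ⟨h, fun h'' => h' h''.2⟩
          · rintro ⟨h, h'⟩
            refine ⟨Or.inr h, fun h'' => h' ⟨?_, h''⟩⟩
            rintro rfl
            exact ha h
        rw [e1, e2, hws _ (fun h => ha (Finset.mem_sdiff.mp h).1)]
        exact ⟨h1, h2⟩
      · have hJs : J ⊆ s := by
          intro i hi
          rcases Finset.mem_insert.mp (hJ hi) with rfl | h
          · exact absurd hi haJ
          · exact h
        obtain ⟨h1, h2⟩ := hw2 J hJs
        set B : AddSubgroup M := A0 ⊔ AddSubgroup.closure (x '' (J : Set ι)) with hB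
        have hBA : B ⊔ A1 = A1 ⊔ AddSubgroup.closure (x '' (J : Set ι)) := by
          rw [hB, hA1]
          apply le_antisymm
          · refine sup_le (sup_le ?_ le_sup_right) le_sup_left
            exact le_sup_left.trans le_sup_left
          · exact sup_le le_sup_right (le_sup_right.trans le_sup_left)
        have hJZ : AddSubgroup.closure (x '' (J : Set ι)) ≤ Z := by
          rw [AddSubgroup.closure_le]
          rintro _ ⟨i, hi, rfl⟩
          exact hx i (hJ hi)
        have hBZ : B ⊔ A1 ≤ Z := sup_le (sup_le hA hJZ) h1Z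
        have hm2 : B.relIndex (B ⊔ A1) * (B ⊔ A1).relIndex Z = B.relIndex Z :=
          AddSubgroup.relIndex_mul_relIndex B (B ⊔ A1) Z le_sup_left hBZ
        have hm3 : B.relIndex (B ⊔ A1) = B.relIndex A1 := AddSubgroup.relIndex_sup_left _ _
        have hm4 : B.relIndex A1 ≤ A0.relIndex A1 :=
          AddSubgroup.relIndex_le_of_le_left le_sup_left hne01
        have hm5 : B.relIndex A1 ≠ 0 := fun h =>
          hne01 (AddSubgroup.relIndex_eq_zero_of_le_left le_sup_left h)
        rw [hm3, hBA] at hm2
        have hBne : B.relIndex Z ≠ 0 := by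
          rw [← hm2]; exact mul_ne_zero hm5 h1
        refine ⟨hBne, ?_⟩
        have e2 : insert a s \ J = insert a (s \ J) := by
          ext i
          simp only [Finset.mem_sdiff, Finset.mem_insert]
          constructor
          · rintro ⟨rfl | h, h'⟩
            · exact Or.inl rfl
            · exact Or.inr ⟨h, h'⟩
          · rintro (rfl | ⟨h, h'⟩)
            · exact ⟨Or.inl rfl, haJ⟩
            · exact ⟨Or.inr h, h'⟩
        rw [e2, Finset.sum_insert (fun h => ha (Finset.mem_sdiff.mp h).1), hwa,
          hws _ (fun h => ha (Finset.mem_sdiff.mp h).1), ← hm2]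
        push_cast
        rw [Real.log_mul (by exact_mod_cast hm5) (by exact_mod_cast h1)]
        refine add_le_add ?_ h2
        refine Real.log_le_log ?_ (by exact_mod_cast hm4)
        exact_mod_cast Nat.pos_of_ne_zero hm5

theorem count : Stmt_Count := by
  intro M _ A0 Z ι _ s x hA hx hZ hne
  exact count_aux x Z s A0 hA hx hZ hne

end Pool.Agent.Work.MP_d1e9a6_pr
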