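import Pool.Agent.Work.MP_d1e9a6_pr.Statements

/-!
# MP_d1e9a6_pr: elementary calculus of `PrG`
-/

set_option autoImplicit false

open Finset

namespace Pool.Agent.Work.MP_d1e9a6_pr

open Classical in
/-- the possible edges -/
noncomputable def allE (n : ℕ) : Finset (Sym2 (Fin n)) :=
  Finset.univ.filter fun e => ¬ e.IsDiag

open Classical in
/-- `edgeFinset` with the classical instance -/
noncomputable def eF {n : ℕ} (G : SimpleGraph (Fin n)) : Finset (Sym2 (Fin n)) := G.edgeFinset

lemma mem_eF {n : ℕ} (G : SimpleGraph (Fin n)) (e : Sym2 (Fin n)) : e ∈ eF G ↔ e ∈ G.edgeSet := by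
  simp [eF]

lemma mem_allE {n : ℕ} (e : Sym2 (Fin n)) : e ∈ allE n ↔ ¬ e.IsDiag := by
  simp [allE]

lemma eF_subset {n : ℕ} (G : SimpleGraph (Fin n)) : eF G ⊆ allE n := by
  intro e he
  rw [mem_eF] at he
  rw [mem_allE]
  exact G.not_isDiag_of_mem_edgeSet he

lemma card_allE (n : ℕ) : (allE n).card = n.choose 2 := by
  classical
  have h : allE n = (⊤ : SimpleGraph (Fin n)).edgeFinset := by
    ext e
    rw [mem_allE, SimpleGraph.mem_edgeFinset, SimpleGraph.edgeSet_top]
    simp
  rw [h, SimpleGraph.card_edgeFinset_top_eq_card_choose_two, Fintype.card_fin]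

/-- graph with a given edge set -/
def ofE {n : ℕ} (E : Finset (Sym2 (Fin n))) : SimpleGraph (Fin n) := SimpleGraph.fromEdgeSet (E : Set (Sym2 (Fin n)))

lemma ofE_eF {n : ℕ} (G : SimpleGraph (Fin n)) : ofE (eF G) = G := by
  classical
  unfold ofE eF
  rw [SimpleGraph.coe_edgeFinset, SimpleGraph.fromEdgeSet_edgeSet]

lemma eF_ofE {n : ℕ} {E : Finset (Sym2 (Fin n))} (hE : E ⊆ allE n) : eF (ofE E) = E := by
  classical
  ext e
  rw [mem_eF, ofE, SimpleGraph.edgeSet_fromEdgeSet]
  simp only [Set.mem_sdiff, Finset.mem_coe]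
  constructor
  · exact fun h => h.1
  · intro h
    refine ⟨h, ?_⟩
    have := hE h
    rw [mem_allE] at this
    simpa using this

lemma PrG_def (n : ℕ) (p : ℝ) (P : SimpleGraph (Fin n) → Prop) [DecidablePred P]
    [Fintype (SimpleGraph (Fin n))] :
    PrG n p P = ∑ G ∈ (Finset.univ : Finset (SimpleGraph (Fin n))).filter P,
      p ^ (eF G).card * (1 - p) ^ ((allE n).card - (eF G).card) := by
  rw [card_allE]
  unfold PrG
  refine Finset.sum_congr ?_ fun G _ => ?_
  · ext G
    simp
  · have h : ∀ (i : Fintype G.edgeSet), (@SimpleGraph.edgeFinset _ G i) = eF G := by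
      intro i
      ext e
      rw [mem_eF, SimpleGraph.mem_edgeFinset]
    rw [h]

/-- transfer to edge sets -/
lemma PrG_eq (n : ℕ) (p : ℝ) (P : SimpleGraph (Fin n) → Prop)
    [DecidablePred fun E : Finset (Sym2 (Fin n)) => P (ofE E)] :
    PrG n p P = ∑ E ∈ (allE n).powerset.filter (fun E => P (ofE E)),
      p ^ E.card * (1 - p) ^ ((allE n).card - E.card) := by
  classical
  rw [PrG_def]
  refine Finset.sum_nbij' (fun G => eF G) (fun E => ofE E) ?_ ?_ ?_ ?_ ?_
  · intro G hG
    rw [Finset.mem_filter] at hG ⊢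
    refine ⟨Finset.mem_powerset.mpr (eF_subset G), ?_⟩
    rw [ofE_eF]; exact hG.2
  · intro E hE
    rw [Finset.mem_filter] at hE ⊢
    exact ⟨Finset.mem_univ _, hE.2⟩
  · intro G _; exact ofE_eF G
  · intro E hE
    rw [Finset.mem_filter, Finset.mem_powerset] at hE
    exact eF_ofE hE.1
  · intro G _; rfl

lemma PrG_true (n : ℕ) (p : ℝ) : PrG n p (fun _ => True) = 1 := by
  classical
  rw [PrG_eq, Finset.filter_true_of_mem (fun _ _ => trivial),
    Finset.sum_pow_mul_eq_add_pow p (1 - p) (allE n)]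
  rw [add_sub_cancel, one_pow]

lemma PrG_nonneg {n : ℕ} {p : ℝ} (h0 : 0 ≤ p) (h1 : p ≤ 1) (P : SimpleGraph (Fin n) → Prop) :
    0 ≤ PrG n p P := by
  classical
  rw [PrG_def]
  refine Finset.sum_nonneg fun G _ => ?_
  have : 0 ≤ 1 - p := by linarith
  positivity

lemma PrG_mono {n : ℕ} {p : ℝ} (h0 : 0 ≤ p) (h1 : p ≤ 1) {P Q : SimpleGraph (Fin n) → Prop}
    (h : ∀ G, P G → Q G) : PrG n p P ≤ PrG n p Q := by
  classical
  rw [PrG_def, PrG_def]
  refine Finset.sum_le_sum_of_subset_of_nonneg ?_ ?_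
  · intro G hG
    rw [Finset.mem_filter] at hG ⊢
    exact ⟨hG.1, h G hG.2⟩
  · intro G _ _
    have : 0 ≤ 1 - p := by linarith
    positivity

lemma PrG_compl {n : ℕ} {p : ℝ} (P : SimpleGraph (Fin n) → Prop) :
    PrG n p P + PrG n p (fun G => ¬ P G) = 1 := by
  classical
  rw [← PrG_true n p, PrG_def, PrG_def, PrG_def]
  rw [Finset.sum_filter_add_sum_filter_not]
  rw [Finset.filter_true_of_mem (fun _ _ => trivial)]

lemma PrG_le_one {n : ℕ} {p : ℝ} (h0 : 0 ≤ p) (h1 : p ≤ 1) (P : SimpleGraph (Fin n) → Prop) :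
    PrG n p P ≤ 1 := by
  rw [← PrG_true n p]
  exact PrG_mono h0 h1 fun _ _ => trivial

lemma PrG_or_le {n : ℕ} {p : ℝ} (h0 : 0 ≤ p) (h1 : p ≤ 1) (P Q : SimpleGraph (Fin n) → Prop) :
    PrG n p (fun G => P G ∨ Q G) ≤ PrG n p P + PrG n p Q := by
  classical
  rw [PrG_def, PrG_def, PrG_def, Finset.filter_or]
  have h := Finset.sum_union_inter (s₁ := (Finset.univ : Finset (SimpleGraph (Fin n))).filter P)
    (s₂ := (Finset.univ : Finset (SimpleGraph (Fin n))).filter Q)
    (f := fun G => p ^ (eF G).card * (1 - p) ^ ((allE n).card - (eF G).card))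
  have h2 : 0 ≤ ∑ G ∈ (Finset.univ : Finset (SimpleGraph (Fin n))).filter P ∩
      (Finset.univ : Finset (SimpleGraph (Fin n))).filter Q,
      p ^ (eF G).card * (1 - p) ^ ((allE n).card - (eF G).card) := by
    refine Finset.sum_nonneg fun G _ => ?_
    have : 0 ≤ 1 - p := by linarith
    positivity
  linarith

lemma PrG_false (n : ℕ) (p : ℝ) : PrG n p (fun _ => False) = 0 := by
  classical
  rw [PrG_def, Finset.filter_false]
  simp

/-- union bound -/
lemma PrG_exists_le {n : ℕ} {p : ℝ} (h0 : 0 ≤ p) (h1 : p ≤ 1) {ι : Type*} (s : Finset ι)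
    (P : ι → SimpleGraph (Fin n) → Prop) :
    PrG n p (fun G => ∃ i ∈ s, P i G) ≤ ∑ i ∈ s, PrG n p (P i) := by
  classical
  induction s using Finset.induction_on with
  | empty =>
    simp only [Finset.notMem_empty, false_and, exists_false, Finset.sum_empty]
    exact (PrG_false n p).le
  | insert a s ha ih =>
    rw [Finset.sum_insert ha]
    refine le_trans ?_ (add_le_add le_rfl ih)
    refine le_trans (PrG_mono h0 h1 ?_) (PrG_or_le h0 h1 _ _)
    rintro G ⟨i, hi, hG⟩
    rcases Finset.mem_insert.mp hi with rfl | hi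
    · exact Or.inl hG
    · exact Or.inr ⟨i, hi, hG⟩

/-- probability that a given set of edges is present -/
lemma PrG_subset (n : ℕ) (p : ℝ) {S : Finset (Sym2 (Fin n))} (hS : S ⊆ allE n) :
    PrG n p (fun G => S ⊆ eF G) = p ^ S.card := by
  classical
  rw [PrG_eq]
  have h1 : ∑ E ∈ (allE n).powerset.filter (fun E => S ⊆ eF (ofE E)),
      p ^ E.card * (1 - p) ^ ((allE n).card - E.card) =
      ∑ E ∈ (allE n \ S).powerset, p ^ S.card *
        (p ^ E.card * (1 - p) ^ ((allE n \ S).card - E.card)) := by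
    refine Finset.sum_nbij' (fun E => E \ S) (fun E => E ∪ S) ?_ ?_ ?_ ?_ ?_
    · intro E hE
      rw [Finset.mem_filter, Finset.mem_powerset] at hE
      rw [Finset.mem_powerset]
      exact Finset.sdiff_subset_sdiff hE.1 (Finset.Subset.refl S)
    · intro E hE
      rw [Finset.mem_powerset] at hE
      have hE' : E ∪ S ⊆ allE n := Finset.union_subset (hE.trans Finset.sdiff_subset) hS
      rw [Finset.mem_filter, Finset.mem_powerset, eF_ofE hE']
      exact ⟨hE', Finset.subset_union_right⟩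
    · intro E hE
      rw [Finset.mem_filter, Finset.mem_powerset] at hE
      rw [eF_ofE hE.1] at hE
      exact Finset.sdiff_union_of_subset hE.2
    · intro E hE
      rw [Finset.mem_powerset] at hE
      have hd : Disjoint E S := by
        rw [Finset.disjoint_left]
        intro e he hs
        exact (Finset.mem_sdiff.mp (hE he)).2 hs
      exact Finset.union_sdiff_cancel_right hd
    · intro E hE
      rw [Finset.mem_filter, Finset.mem_powerset] at hE
      rw [eF_ofE hE.1] at hE
      have hc : (E \ S).card + S.card = E.card := Finset.card_sdiff_add_card_eq_card hE.2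
      have hc2 : (allE n \ S).card + S.card = (allE n).card :=
        Finset.card_sdiff_add_card_eq_card hS
      have hc3 : E.card ≤ (allE n).card := Finset.card_le_card hE.1
      have e1 : (allE n \ S).card - (E \ S).card = (allE n).card - E.card := by omega
      rw [e1, ← hc, pow_add]
      ring
  rw [h1, ← Finset.mul_sum, Finset.sum_pow_mul_eq_add_pow p (1 - p) (allE n \ S)]
  rw [add_sub_cancel, one_pow, mul_one]

end Pool.Agent.Work.MP_d1e9a6_pr
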