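import Pool.Agent.Work.MP_d1e9a6_pr_helper54.Gnp

/-!
# MP_d1e9a6_pr: first moment bounds, `Stmt_Sparse`
-/

set_option autoImplicit false

open Finset

namespace Pool.Agent.Work.MP_d1e9a6_pr

open Classical in
/-- possible edges inside `U` -/
noncomputable def inE {n : ℕ} (U : Finset (Fin n)) : Finset (Sym2 (Fin n)) :=
  (allE n).filter fun e => ∀ v ∈ e, v ∈ U

lemma inE_subset {n : ℕ} (U : Finset (Fin n)) : inE U ⊆ allE n := by
  classical exact Finset.filter_subset _ _

lemma card_inE_le {n : ℕ} (U : Finset (Fin n)) : (inE U).card ≤ (U.card + 1).choose 2 := by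
  classical
  rw [← Finset.card_sym2]
  refine Finset.card_le_card ?_
  intro e he
  unfold inE at he
  rw [Finset.mem_filter] at he
  rw [Finset.mem_sym2_iff]
  exact he.2

lemma eIn_eq {n : ℕ} (G : SimpleGraph (Fin n)) (U : Finset (Fin n)) :
    eIn G U = (eF G ∩ inE U).card := by
  unfold eIn
  congr 1
  ext e
  simp only [Finset.mem_inter, inE, Finset.mem_filter]
  constructor
  · rintro ⟨h1, h2⟩
    have h3 : e ∈ eF G := h1
    exact ⟨h3, eF_subset G h3, h2⟩
  · rintro ⟨h1, _, h2⟩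
    exact ⟨h1, h2⟩

/-- first moment -/
lemma PrG_dense {n : ℕ} {p : ℝ} (h0 : 0 ≤ p) (h1 : p ≤ 1) (u f : ℕ) :
    PrG n p (fun G => ∃ U : Finset (Fin n), U.card = u ∧ f ≤ eIn G U) ≤
      2 ^ ((u + 1).choose 2) * ((n : ℝ) ^ u * p ^ f) := by
  classical
  have key : PrG n p (fun G => ∃ U : Finset (Fin n), U.card = u ∧ f ≤ eIn G U) ≤
      PrG n p (fun G => ∃ US ∈ (Finset.powersetCard u (Finset.univ : Finset (Fin n))).sigma
        (fun U => Finset.powersetCard f (inE U)), US.2 ⊆ eF G) := by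
    refine PrG_mono h0 h1 ?_
    rintro G ⟨U, hU, hf⟩
    rw [eIn_eq] at hf
    obtain ⟨S, hS, hSf⟩ := Finset.exists_subset_card_eq hf
    refine ⟨⟨U, S⟩, ?_, ?_⟩
    · rw [Finset.mem_sigma, Finset.mem_powersetCard, Finset.mem_powersetCard]
      exact ⟨⟨Finset.subset_univ _, hU⟩, hS.trans Finset.inter_subset_right, hSf⟩
    · exact hS.trans Finset.inter_subset_left
  refine key.trans ((PrG_exists_le h0 h1 _ _).trans ?_)
  rw [Finset.sum_sigma]
  have h2 : ∀ U ∈ Finset.powersetCard u (Finset.univ : Finset (Fin n)),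
      ∑ S ∈ Finset.powersetCard f (inE U), PrG n p (fun G => S ⊆ eF G) ≤
        2 ^ ((u + 1).choose 2) * p ^ f := by
    intro U hU
    rw [Finset.mem_powersetCard] at hU
    have h3 : ∀ S ∈ Finset.powersetCard f (inE U), PrG n p (fun G => S ⊆ eF G) = p ^ f := by
      intro S hS
      rw [Finset.mem_powersetCard] at hS
      rw [PrG_subset n p (hS.1.trans (inE_subset U)), hS.2]
    rw [Finset.sum_congr rfl h3, Finset.sum_const, nsmul_eq_mul]
    refine mul_le_mul_of_nonneg_right ?_ (pow_nonneg h0 _)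
    have h4 : (Finset.powersetCard f (inE U)).card ≤ 2 ^ ((u + 1).choose 2) := by
      calc (Finset.powersetCard f (inE U)).card ≤ (inE U).powerset.card :=
            Finset.card_le_card fun S hS =>
              Finset.mem_powerset.mpr (Finset.mem_powersetCard.mp hS).1
        _ = 2 ^ (inE U).card := Finset.card_powerset _
        _ ≤ 2 ^ ((u + 1).choose 2) := by
            refine Nat.pow_le_pow_right (by norm_num) ?_
            have := card_inE_le U
            rwa [hU.2] at this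
    exact_mod_cast h4
  refine (Finset.sum_le_sum h2).trans ?_
  rw [Finset.sum_const, nsmul_eq_mul, Finset.card_powersetCard, Finset.card_univ, Fintype.card_fin]
  have h5 : ((n.choose u : ℕ) : ℝ) ≤ (n : ℝ) ^ u := by
    exact_mod_cast Nat.choose_le_pow n u
  have h6 : (0 : ℝ) ≤ 2 ^ ((u + 1).choose 2) * p ^ f := by positivity
  calc ((n.choose u : ℕ) : ℝ) * (2 ^ ((u + 1).choose 2) * p ^ f)
      ≤ (n : ℝ) ^ u * (2 ^ ((u + 1).choose 2) * p ^ f) := mul_le_mul_of_nonneg_right h5 h6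
    _ = _ := by ring

/-- the first moment tends to `0` -/
lemma tendsto_moment {k : ℕ} {ε : ℝ} {p : ℕ → ℝ}
    (hp : ∀ᶠ n : ℕ in Filter.atTop, 0 ≤ p n ∧ p n ≤ 1 ∧
      p n ≤ (n : ℝ) ^ (-ε) / (n : ℝ) ^ (1 / ((k : ℝ) + 1))) (C : ℝ) (u f : ℕ)
    (huf : (u : ℝ) < f * (ε + 1 / ((k : ℝ) + 1))) (hC : 0 ≤ C) :
    Filter.Tendsto (fun n : ℕ => C * ((n : ℝ) ^ u * p n ^ f)) Filter.atTop (nhds 0) := by
  set c : ℝ := f * (ε + 1 / ((k : ℝ) + 1)) - u with hc
  have hcpos : 0 < c := by rw [hc]; linarith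
  have hlim : Filter.Tendsto (fun n : ℕ => C * (n : ℝ) ^ (-c)) Filter.atTop (nhds 0) := by
    have h := (tendsto_rpow_neg_atTop hcpos).comp tendsto_natCast_atTop_atTop
    simpa using h.const_mul C
  refine tendsto_of_tendsto_of_tendsto_of_le_of_le' tendsto_const_nhds hlim ?_ ?_
  · filter_upwards [hp] with n hn
    have := hn.1
    positivity
  · filter_upwards [hp, Filter.eventually_gt_atTop 0] with n hn hn0
    have hn1 : (0 : ℝ) < n := by exact_mod_cast hn0
    refine mul_le_mul_of_nonneg_left ?_ hC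
    have h1 : p n ≤ (n : ℝ) ^ (-(ε + 1 / ((k : ℝ) + 1))) := by
      refine hn.2.2.trans (le_of_eq ?_)
      rw [← Real.rpow_sub hn1]
      congr 1
      ring
    have h2 : p n ^ f ≤ (n : ℝ) ^ (-(ε + 1 / ((k : ℝ) + 1)) * f) := by
      rw [Real.rpow_mul hn1.le, Real.rpow_natCast]
      exact pow_le_pow_left₀ hn.1 h1 f
    calc (n : ℝ) ^ u * p n ^ f ≤ (n : ℝ) ^ u * (n : ℝ) ^ (-(ε + 1 / ((k : ℝ) + 1)) * f) :=
          mul_le_mul_of_nonneg_left h2 (by positivity)
      _ = (n : ℝ) ^ (-c) := by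
          rw [← Real.rpow_natCast, ← Real.rpow_add hn1]
          congr 1
          rw [hc]; ring

theorem sparse : Stmt_Sparse := by
  intro k ε hk hε
  set M : ℕ := k + 2 + ⌈((k : ℝ) + 2) / ε⌉₊ with hM
  have hMk : k + 2 ≤ M := by omega
  have hMr : ((k : ℝ) + 2) + ((k : ℝ) + 2) / ε ≤ M := by
    rw [hM]; push_cast
    have := Nat.le_ceil (((k : ℝ) + 2) / ε)
    linarith
  refine ⟨M, hMk, ?_⟩
  intro p hp
  -- the exceptional number of edges on `M` vertices
  obtain ⟨h, hh⟩ : ∃ h : ℕ, (k + 1) * (k + 2) = 2 * h := by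
    obtain ⟨h, hh⟩ := (Nat.even_mul_succ_self (k + 1))
    exact ⟨h, by rw [show k + 2 = k + 1 + 1 from rfl, hh]; ring⟩
  set F : ℕ := (k + 1) * M - h with hF
  have hhM : h ≤ (k + 1) * M := by
    have : (k + 1) * (k + 2) ≤ (k + 1) * M := Nat.mul_le_mul_left _ hMk
    omega
  -- bound for the bad event
  set B : ℕ → ℝ := fun n => (∑ u ∈ Finset.Icc 1 M,
      (2 : ℝ) ^ ((u + 1).choose 2) * ((n : ℝ) ^ u * p n ^ ((k + 1) * u))) +
      (2 : ℝ) ^ ((M + 1).choose 2) * ((n : ℝ) ^ M * p n ^ F) with hB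
  have hk0 : (0 : ℝ) < (k : ℝ) + 1 := by positivity
  have hBlim : Filter.Tendsto B Filter.atTop (nhds 0) := by
    rw [hB]
    have h1 : Filter.Tendsto (fun n : ℕ => ∑ u ∈ Finset.Icc 1 M,
        (2 : ℝ) ^ ((u + 1).choose 2) * ((n : ℝ) ^ u * p n ^ ((k + 1) * u)))
        Filter.atTop (nhds (∑ _u ∈ Finset.Icc 1 M, (0 : ℝ))) := by
      refine tendsto_finsetSum _ fun u hu => ?_
      rw [Finset.mem_Icc] at hu
      refine tendsto_moment hp _ u _ ?_ (by positivity)
      have hu1 : (0 : ℝ) < u := by exact_mod_cast hu.1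
      push_cast
      have : ((k : ℝ) + 1) * u * (ε + 1 / ((k : ℝ) + 1)) = ((k : ℝ) + 1) * u * ε + u := by
        field_simp
      rw [this]
      have : 0 < ((k : ℝ) + 1) * u * ε := by positivity
      linarith
    have h2 : Filter.Tendsto (fun n : ℕ => (2 : ℝ) ^ ((M + 1).choose 2) * ((n : ℝ) ^ M * p n ^ F))
        Filter.atTop (nhds 0) := by
      refine tendsto_moment hp _ M F ?_ (by positivity)
      have hFr : (F : ℝ) = ((k : ℝ) + 1) * M - ((k : ℝ) + 1) * (k + 2) / 2 := by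
        have e1 : ((k : ℝ) + 1) * (k + 2) = 2 * h := by exact_mod_cast hh
        rw [hF, Nat.cast_sub hhM]
        push_cast
        rw [e1]; ring
      rw [hFr]
      have e2 : (((k : ℝ) + 1) * M - ((k : ℝ) + 1) * (k + 2) / 2) * (ε + 1 / ((k : ℝ) + 1)) =
          (((k : ℝ) + 1) * M - ((k : ℝ) + 1) * (k + 2) / 2) * ε + (M - (k + 2) / 2) := by
        field_simp
      rw [e2]
      have hk2 : (0 : ℝ) ≤ k := by positivity
      have e3 : ((k : ℝ) + 2) / ε * ε = (k : ℝ) + 2 := by field_simp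
      have e4 : ((k : ℝ) + 2) / ε ≤ ((k : ℝ) + 1) * M - ((k : ℝ) + 1) * (k + 2) / 2 := by
        have a1 : ((k : ℝ) + 1) * (((k : ℝ) + 2) + ((k : ℝ) + 2) / ε) ≤ ((k : ℝ) + 1) * M :=
          mul_le_mul_of_nonneg_left hMr hk0.le
        have a2 : 0 ≤ ((k : ℝ) + 2) / ε := by positivity
        nlinarith
      have e5 : (k : ℝ) + 2 ≤ (((k : ℝ) + 1) * M - ((k : ℝ) + 1) * (k + 2) / 2) * ε := by
        calc (k : ℝ) + 2 = ((k : ℝ) + 2) / ε * ε := e3.symm
          _ ≤ _ := mul_le_mul_of_nonneg_right e4 hε.le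
      linarith
    have h3 := h1.add h2
    simpa using h3
  have hlow : Filter.Tendsto (fun n => 1 - B n) Filter.atTop (nhds 1) := by
    simpa using (tendsto_const_nhds (x := (1 : ℝ))).sub hBlim
  refine tendsto_of_tendsto_of_tendsto_of_le_of_le' hlow tendsto_const_nhds ?_ ?_
  · filter_upwards [hp] with n hn
    set P : SimpleGraph (Fin n) → Prop := fun G =>
      (∀ U : Finset (Fin n), U.Nonempty → U.card ≤ M → eIn G U < (k + 1) * U.card) ∧
      (∀ U : Finset (Fin n), U.card = M → 2 * eIn G U + (k + 1) * (k + 2) < 2 * ((k + 1) * M))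
      with hP
    have hc := PrG_compl (n := n) (p := p n) P
    have hle : PrG n (p n) (fun G => ¬ P G) ≤ B n := by
      have s1 : PrG n (p n) (fun G => ¬ P G) ≤ PrG n (p n) (fun G =>
          (∃ u ∈ Finset.Icc 1 M, ∃ U : Finset (Fin n), U.card = u ∧ (k + 1) * u ≤ eIn G U) ∨
          (∃ U : Finset (Fin n), U.card = M ∧ F ≤ eIn G U)) := by
        refine PrG_mono hn.1 hn.2.1 ?_
        intro G hG
        rw [hP] at hG
        simp only [not_and_or] at hG
        rcases hG with hG | hG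
        · left
          push Not at hG
          obtain ⟨U, hU1, hU2, hU3⟩ := hG
          refine ⟨U.card, Finset.mem_Icc.mpr ⟨Finset.card_pos.mpr hU1, hU2⟩, U, rfl, hU3⟩
        · right
          push Not at hG
          obtain ⟨U, hU1, hU2⟩ := hG
          refine ⟨U, hU1, ?_⟩
          omega
      refine s1.trans ((PrG_or_le hn.1 hn.2.1 _ _).trans ?_)
      rw [hB]
      refine add_le_add ?_ (PrG_dense hn.1 hn.2.1 M F)
      refine (PrG_exists_le hn.1 hn.2.1 _ _).trans ?_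
      exact Finset.sum_le_sum fun u _ => PrG_dense hn.1 hn.2.1 u _
    linarith
  · filter_upwards [hp] with n hn
    exact PrG_le_one hn.1 hn.2.1 _

end Pool.Agent.Work.MP_d1e9a6_pr
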