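import Pool.Agent.Work.MP_d1e9a6_pr.Statements

/-!
# MP_d1e9a6_pr: `Stmt_Index2`
-/

set_option autoImplicit false

namespace Pool.Agent.Work.MP_d1e9a6_pr

section

variable {V : Type} [Fintype V]

/-- coordinates modulo `r` -/
noncomputable def modMap (m r : ℕ) : Ch V →+ ((Fin m → V) → ZMod r) where
  toFun z g := ((z (List.ofFn g) : ℤ) : ZMod r)
  map_zero' := by ext g; simp
  map_add' x y := by ext g; simp

/-- division of all coefficients -/
noncomputable def divCh (r : ℕ) (z : Ch V) : Ch V := z.mapRange (fun a => a / (r : ℤ)) (by simp)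

omit [Fintype V] in
lemma exists_div {F : List V → Prop} {m r : ℕ} (hr : r ≠ 0) {z : Ch V} (hz : z ∈ Zc F m)
    (hk : modMap m r z = 0) : ∃ z' ∈ Zc F m, (r : ℤ) • z' = z := by
  have hdvd : ∀ l, (r : ℤ) ∣ z l := by
    intro l
    by_cases hl : l ∈ z.support
    · obtain ⟨_, hlen⟩ := (mem_CF.mp hz.1) l hl
      have h1 := congrFun hk (fun i : Fin m => l.get (Fin.cast hlen.symm i))
      have h2 : List.ofFn (fun i : Fin m => l.get (Fin.cast hlen.symm i)) = l := by
        subst hlen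
        exact List.ofFn_get l
      have h3 : ((z l : ℤ) : ZMod r) = 0 := by
        have h4 : modMap m r z (fun i : Fin m => l.get (Fin.cast hlen.symm i)) =
            ((z (List.ofFn (fun i : Fin m => l.get (Fin.cast hlen.symm i))) : ℤ) : ZMod r) := rfl
        rw [h4, h2] at h1
        simpa using h1
      exact (ZMod.intCast_zmod_eq_zero_iff_dvd _ _).mp h3
    · rw [Finsupp.notMem_support_iff.mp hl]; exact dvd_zero _
  have hr' : (r : ℤ) ≠ 0 := by exact_mod_cast hr
  have heq : (r : ℤ) • divCh r z = z := by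
    ext l
    rw [Finsupp.smul_apply, divCh, Finsupp.mapRange_apply, smul_eq_mul]
    exact Int.mul_ediv_cancel' (hdvd l)
  refine ⟨divCh r z, ⟨?_, ?_⟩, heq⟩
  · show divCh r z ∈ CF F m
    rw [mem_CF]
    intro l hl
    refine (mem_CF.mp hz.1) l ?_
    rw [Finsupp.mem_support_iff] at hl ⊢
    intro h0
    apply hl
    rw [divCh, Finsupp.mapRange_apply, h0]; simp
  · show divCh r z ∈ LinearMap.ker D
    rw [LinearMap.mem_ker]
    have h1 : (r : ℤ) • D (divCh r z) = 0 := by
      rw [← map_smul, heq]; exact hz.2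
    rcases smul_eq_zero.mp h1 with h | h
    · exact absurd h hr'
    · exact h

/-- `[Z : r Z]` is finite and at most `r ^ (number of lists)` -/
lemma relIndex_smul_Zc (F : List V → Prop) (m r : ℕ) (hr : r ≠ 0) :
    ((Zc F m).map (LinearMap.lsmul ℤ (Ch V) (r : ℤ))).toAddSubgroup.relIndex
      (Zc F m).toAddSubgroup ≠ 0 ∧
    ((Zc F m).map (LinearMap.lsmul ℤ (Ch V) (r : ℤ))).toAddSubgroup.relIndex
      (Zc F m).toAddSubgroup ≤ r ^ (Fintype.card V ^ m) := by
  have : NeZero r := ⟨hr⟩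
  set Z := (Zc F m).toAddSubgroup with hZ
  set R := ((Zc F m).map (LinearMap.lsmul ℤ (Ch V) (r : ℤ))).toAddSubgroup with hR
  set K := (modMap (V := V) m r).ker with hK
  have hKZ : K ⊓ Z ≤ R := by
    intro z hz
    rw [AddSubgroup.mem_inf] at hz
    obtain ⟨z', hz', h⟩ := exists_div hr (F := F) (m := m) hz.2 hz.1
    exact ⟨z', hz', h⟩
  have hcard : K.relIndex Z ≤ r ^ (Fintype.card V ^ m) := by
    rw [hK, AddSubgroup.relIndex_ker]
    have h1 : Nat.card (AddSubgroup.map (modMap (V := V) m r) Z) ≤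
        Nat.card ((Fin m → V) → ZMod r) :=
      Nat.card_le_card_of_injective (fun x => (x : (Fin m → V) → ZMod r))
        Subtype.val_injective
    refine h1.trans ?_
    rw [Nat.card_fun, Nat.card_zmod, Nat.card_eq_fintype_card, Fintype.card_fun, Fintype.card_fin]
  have hne : K.relIndex Z ≠ 0 := by
    rw [hK, AddSubgroup.relIndex_ker]
    exact Nat.card_ne_zero.mpr ⟨⟨0, AddSubgroup.zero_mem _⟩, inferInstance⟩
  have hne' : (K ⊓ Z).relIndex Z ≠ 0 := by rwa [AddSubgroup.inf_relIndex_right]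
  refine ⟨fun h => hne' (AddSubgroup.relIndex_eq_zero_of_le_left hKZ h), ?_⟩
  refine (AddSubgroup.relIndex_le_of_le_left hKZ hne').trans ?_
  rwa [AddSubgroup.inf_relIndex_right]

lemma CF_fg (F : List V → Prop) (m : ℕ) : (CF F m).FG := by
  rw [CF, Finsupp.supported_eq_span_single]
  refine Submodule.fg_span (Set.Finite.image _ ?_)
  exact (List.finite_length_eq V m).subset fun l hl => hl.2

lemma Zc_fg (F : List V → Prop) (m : ℕ) : (Zc F m).FG := (CF_fg F m).of_le inf_le_left

end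

theorem index2 : Stmt_Index2 := by
  intro m V _ F hF
  set Z := (Zc F m).toAddSubgroup with hZ
  set R := ((Zc F m).map (LinearMap.lsmul ℤ (Ch V) 2)).toAddSubgroup with hR
  set BR := (Bd F m ⊔ (Zc F m).map (LinearMap.lsmul ℤ (Ch V) 2)).toAddSubgroup with hBR
  obtain ⟨h1, h2⟩ := relIndex_smul_Zc F m 2 two_ne_zero
  have hle : R ≤ BR := by
    intro z hz
    exact (le_sup_right : (Zc F m).map (LinearMap.lsmul ℤ (Ch V) 2) ≤ _) hz
  have hR' : ((Zc F m).map (LinearMap.lsmul ℤ (Ch V) ((2 : ℕ) : ℤ))).toAddSubgroup = R := rfl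
  rw [hR'] at h1 h2
  have hne : BR.relIndex Z ≠ 0 := fun h => h1 (AddSubgroup.relIndex_eq_zero_of_le_left hle h)
  refine ⟨hne, ?_, ?_⟩
  · have h3 : BR.relIndex Z ≤ 2 ^ (Fintype.card V ^ m) :=
      (AddSubgroup.relIndex_le_of_le_left hle h1).trans h2
    have h4 : Real.log (BR.relIndex Z) ≤ Real.log ((2 : ℝ) ^ (Fintype.card V ^ m)) := by
      refine Real.log_le_log ?_ ?_
      · exact_mod_cast Nat.pos_of_ne_zero hne
      · exact_mod_cast h3
    rw [Real.log_pow] at h4
    refine h4.trans (le_of_eq ?_)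
    push_cast
    rfl
  · intro hone
    rw [AddSubgroup.relIndex_eq_one] at hone
    have hZle : Zc F m ≤ Bd F m ⊔ (Ideal.span {(2 : ℤ)}) • Zc F m := by
      intro z hz
      have h5 : z ∈ BR := hone hz
      have h6 : (Zc F m).map (LinearMap.lsmul ℤ (Ch V) 2) ≤ (Ideal.span {(2 : ℤ)}) • Zc F m := by
        rintro _ ⟨y, hy, rfl⟩
        exact Submodule.smul_mem_smul (Ideal.mem_span_singleton_self 2) hy
      exact (sup_le_sup_left h6 _) h5
    obtain ⟨r, hr1, hr2⟩ :=
      Submodule.exists_sub_one_mem_and_smul_le_of_fg_of_le_sup (Zc_fg F m) le_rfl hZle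
    have hr0 : r ≠ 0 := by
      rintro rfl
      rw [Ideal.mem_span_singleton] at hr1
      omega
    set q : ℕ := r.natAbs with hq
    have hq0 : q ≠ 0 := by rw [hq]; exact Int.natAbs_ne_zero.mpr hr0
    obtain ⟨h7, _⟩ := relIndex_smul_Zc F m q hq0
    have h8 : ((Zc F m).map (LinearMap.lsmul ℤ (Ch V) (q : ℤ))).toAddSubgroup ≤
        (Bd F m).toAddSubgroup := by
      rintro _ ⟨y, hy, rfl⟩
      have h9 : r • y ∈ Bd F m := hr2 (Submodule.smul_mem_pointwise_smul y r _ hy)
      show ((q : ℤ) • y) ∈ Bd F m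
      rcases Int.natAbs_eq r with h | h
      · rw [← hq] at h
        rw [← h]; exact h9
      · rw [← hq] at h
        have : (q : ℤ) • y = -(r • y) := by rw [h]; simp
        rw [this]
        exact Submodule.neg_mem _ h9
    exact fun h => h7 (AddSubgroup.relIndex_eq_zero_of_le_left h8 h)

end Pool.Agent.Work.MP_d1e9a6_pr
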